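import Mathlib

/-!
# Binomial coefficients are Diophantine
-/

namespace Pool.Agent.Helper76.MR

open Nat Finset

theorem sum_digits_lt {u : ℕ} (c : ℕ → ℕ) (hc : ∀ i, c i < u) (m : ℕ) :
    ∑ i ∈ range m, c i * u ^ i < u ^ m := by
  induction m with
  | zero => simp
  | succ m ih =>
    rw [sum_range_succ]
    have h1 : c m + 1 ≤ u := hc m
    have h2 : (c m + 1) * u ^ m ≤ u * u ^ m := Nat.mul_le_mul_right _ h1
    have h3 : u ^ (m + 1) = u * u ^ m := by ring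
    have h4 : (c m + 1) * u ^ m = c m * u ^ m + u ^ m := by ring
    omega

theorem digit_eq {u : ℕ} (c : ℕ → ℕ) (hc : ∀ i, c i < u) {k K : ℕ} (hk : k < K) :
    (∑ i ∈ range K, c i * u ^ i) / u ^ k % u = c k := by
  have hu : 0 < u := (Nat.zero_le _).trans_lt (hc 0)
  obtain ⟨d, rfl⟩ := Nat.exists_eq_add_of_lt hk
  have h1 : ∃ R, ∑ i ∈ range (k + d + 1), c i * u ^ i =
      ∑ i ∈ range k, c i * u ^ i + u ^ k * (c k + u * R) := by
    refine ⟨∑ j ∈ range d, c (k + 1 + j) * u ^ j, ?_⟩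
    have e : k + d + 1 = k + 1 + d := by ring
    rw [e, sum_range_add, sum_range_succ]
    have e2 : ∑ j ∈ range d, c (k + 1 + j) * u ^ (k + 1 + j) =
        u ^ k * (u * ∑ j ∈ range d, c (k + 1 + j) * u ^ j) := by
      rw [mul_sum, mul_sum]
      apply sum_congr rfl
      intro j _
      ring
    rw [e2]
    ring
  obtain ⟨R, hR⟩ := h1
  rw [hR, Nat.add_mul_div_left _ _ (Nat.pow_pos hu), Nat.div_eq_of_lt (sum_digits_lt c hc k),
    zero_add, Nat.add_mul_mod_self_left, Nat.mod_eq_of_lt (hc k)]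

theorem choose_eq_digit (n k : ℕ) :
    n.choose k = ((2 ^ n + 1 + 1) ^ n / (2 ^ n + 1) ^ k) % (2 ^ n + 1) := by
  have hc : ∀ i, n.choose i < 2 ^ n + 1 := fun i => Nat.lt_succ_of_le (Nat.choose_le_two_pow n i)
  have h1 : (2 ^ n + 1 + 1) ^ n =
      ∑ i ∈ range (n + 1 + k), n.choose i * (2 ^ n + 1) ^ i := by
    rw [sum_range_add, add_pow (2 ^ n + 1) 1 n]
    have h0 : ∑ x ∈ range k, n.choose (n + 1 + x) * (2 ^ n + 1) ^ (n + 1 + x) = 0 := by
      apply sum_eq_zero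
      intro x _
      rw [Nat.choose_eq_zero_of_lt (by omega), zero_mul]
    rw [h0, add_zero]
    apply sum_congr rfl
    intro i _
    simp [mul_comm]
  rw [h1, digit_eq (fun i => n.choose i) hc (by omega)]

theorem choose_dioph {α : Type} {f g : (α → ℕ) → ℕ} (df : Dioph.DiophFn f)
    (dg : Dioph.DiophFn g) : Dioph.DiophFn fun v => (f v).choose (g v) := by
  have h2 : Dioph.DiophFn fun v : α → ℕ => 2 ^ (f v) := Dioph.pow_dioph (Dioph.const_dioph 2) df
  have hu : Dioph.DiophFn fun v : α → ℕ => 2 ^ (f v) + 1 := Dioph.add_dioph h2 (Dioph.const_dioph 1)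
  have hu1 : Dioph.DiophFn fun v : α → ℕ => 2 ^ (f v) + 1 + 1 :=
    Dioph.add_dioph hu (Dioph.const_dioph 1)
  have h3 : Dioph.DiophFn fun v : α → ℕ =>
      ((2 ^ (f v) + 1 + 1) ^ (f v) / (2 ^ (f v) + 1) ^ (g v)) % (2 ^ (f v) + 1) :=
    Dioph.mod_dioph (Dioph.div_dioph (Dioph.pow_dioph hu1 df) (Dioph.pow_dioph hu dg)) hu
  have e : (fun v : α → ℕ => (f v).choose (g v)) = fun v : α → ℕ =>
      ((2 ^ (f v) + 1 + 1) ^ (f v) / (2 ^ (f v) + 1) ^ (g v)) % (2 ^ (f v) + 1) := by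
    funext v
    exact choose_eq_digit (f v) (g v)
  rw [e]
  exact h3

end Pool.Agent.Helper76.MR
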