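import Mathlib

/-!
# The factorial is a Diophantine function (given binomial coefficients)
-/

namespace Pool.Agent.Helper76.MR

open Nat

theorem add_pow_le (a d : ℕ) : ∀ m : ℕ,
    (a + d) ^ (m + 1) ≤ a ^ (m + 1) + (m + 1) * d * (a + d) ^ m
  | 0 => by simp
  | m + 1 => by
    have ih := add_pow_le a d m
    have h1 : (a + d) ^ (m + 1 + 1) = a * (a + d) ^ (m + 1) + d * (a + d) ^ (m + 1) := by ring
    have h2 : a * (a + d) ^ (m + 1) ≤ a * (a ^ (m + 1) + (m + 1) * d * (a + d) ^ m) :=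
      Nat.mul_le_mul_left a ih
    have h3 : (m + 1) * d * (a * (a + d) ^ m) ≤ (m + 1) * d * (a + d) ^ (m + 1) := by
      apply Nat.mul_le_mul_left
      rw [pow_succ, mul_comm]
      exact Nat.mul_le_mul_left _ (Nat.le_add_right a d)
    calc (a + d) ^ (m + 1 + 1) = a * (a + d) ^ (m + 1) + d * (a + d) ^ (m + 1) := h1
      _ ≤ a * (a ^ (m + 1) + (m + 1) * d * (a + d) ^ m) + d * (a + d) ^ (m + 1) := by
          exact Nat.add_le_add_right h2 _
      _ = a ^ (m + 1 + 1) + (m + 1) * d * (a * (a + d) ^ m) + d * (a + d) ^ (m + 1) := by ring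
      _ ≤ a ^ (m + 1 + 1) + (m + 1) * d * (a + d) ^ (m + 1) + d * (a + d) ^ (m + 1) := by
          gcongr
      _ = a ^ (m + 1 + 1) + (m + 1 + 1) * d * (a + d) ^ (m + 1) := by ring

theorem factorial_eq_div (n : ℕ) :
    n ! = ((2 * n + 2) ^ (n + 2)) ^ n / ((2 * n + 2) ^ (n + 2)).choose n := by
  rcases n with _ | m
  · simp
  set r : ℕ := (2 * (m + 1) + 2) ^ (m + 1 + 2) with hr
  have hfac : (m + 1)! + 1 ≤ 2 * (m + 1) ^ (m + 1) := by
    have h1 : (m + 1)! ≤ (m + 1) ^ (m + 1) := Nat.factorial_le_pow _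
    have h2 : 1 ≤ (m + 1) ^ (m + 1) := Nat.one_le_pow _ _ (by omega)
    omega
  have hrbig : ((m + 1)! + 1) * ((m + 1) * m) < r := by
    have h1 : ((m + 1)! + 1) * ((m + 1) * m) ≤ 2 * (m + 1) ^ (m + 1) * ((m + 1) * (m + 1)) := by
      apply Nat.mul_le_mul hfac
      apply Nat.mul_le_mul_left
      omega
    have h2 : 2 * (m + 1) ^ (m + 1) * ((m + 1) * (m + 1)) = 2 * (m + 1) ^ (m + 1 + 2) := by ring
    have h3 : 2 * (m + 1) ^ (m + 1 + 2) ≤ (2 * (m + 1)) ^ (m + 1 + 2) := by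
      rw [mul_pow]
      apply Nat.mul_le_mul_right
      calc 2 = 2 ^ 1 := by norm_num
        _ ≤ 2 ^ (m + 1 + 2) := Nat.pow_le_pow_right (by norm_num) (by omega)
    have h4 : (2 * (m + 1)) ^ (m + 1 + 2) < (2 * (m + 1) + 2) ^ (m + 1 + 2) :=
      Nat.pow_lt_pow_left (by omega) (by omega)
    omega
  have hmr : m < r := by
    have h1 : m + 1 ≤ ((m + 1)! + 1) * ((m + 1) * 1) := by
      have : 1 ≤ (m + 1)! + 1 := by omega
      nlinarith
    rcases Nat.eq_zero_or_pos m with h0 | h0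
    · subst h0
      exact Nat.pos_of_ne_zero (by rw [hr]; positivity)
    · have h2 : ((m + 1)! + 1) * ((m + 1) * 1) ≤ ((m + 1)! + 1) * ((m + 1) * m) := by
        gcongr
        exact h0
      omega
  have hchoose : 0 < r.choose (m + 1) := Nat.choose_pos (by omega)
  have hdesc : r.descFactorial (m + 1) = (m + 1)! * r.choose (m + 1) :=
    Nat.descFactorial_eq_factorial_mul_choose r (m + 1)
  symm
  rw [Nat.div_eq_iff hchoose]
  have hup : r ^ (m + 1) < ((m + 1)! + 1) * r.choose (m + 1) := by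
    have hb := add_pow_le (r - m) m m
    have e1 : r - m + m = r := by omega
    rw [e1] at hb
    have hd : (r - m) ^ (m + 1) ≤ r.descFactorial (m + 1) := by
      have := Nat.pow_sub_le_descFactorial r (m + 1)
      have e2 : r + 1 - (m + 1) = r - m := by omega
      rwa [e2] at this
    have hf : 0 < (m + 1)! := Nat.factorial_pos _
    have key : (m + 1)! * r ^ (m + 1) < (m + 1)! * (((m + 1)! + 1) * r.choose (m + 1)) := by
      have e3 : (m + 1)! * (((m + 1)! + 1) * r.choose (m + 1)) =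
          ((m + 1)! + 1) * r.descFactorial (m + 1) := by rw [hdesc]; ring
      rw [e3]
      have h5 : ((m + 1)! + 1) * (r - m) ^ (m + 1) ≤ ((m + 1)! + 1) * r.descFactorial (m + 1) :=
        Nat.mul_le_mul_left _ hd
      have h6 : ((m + 1)! + 1) * r ^ (m + 1) ≤
          ((m + 1)! + 1) * ((r - m) ^ (m + 1) + (m + 1) * m * r ^ m) :=
        Nat.mul_le_mul_left _ hb
      have h7 : ((m + 1)! + 1) * ((m + 1) * m) * r ^ m < r * r ^ m :=
        Nat.mul_lt_mul_of_pos_right hrbig (Nat.pow_pos (by omega))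
      have e4 : r * r ^ m = r ^ (m + 1) := by ring
      rw [e4] at h7
      have e5 : ((m + 1)! + 1) * ((r - m) ^ (m + 1) + (m + 1) * m * r ^ m) =
          ((m + 1)! + 1) * (r - m) ^ (m + 1) + ((m + 1)! + 1) * ((m + 1) * m) * r ^ m := by ring
      rw [e5] at h6
      have e6 : ((m + 1)! + 1) * r ^ (m + 1) = (m + 1)! * r ^ (m + 1) + r ^ (m + 1) := by ring
      rw [e6] at h6
      omega
    exact lt_of_mul_lt_mul_left key (Nat.zero_le _)
  have hlow : (m + 1)! * r.choose (m + 1) ≤ r ^ (m + 1) := by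
    rw [← hdesc]; exact Nat.descFactorial_le_pow r (m + 1)
  constructor
  · exact hlow
  · have : ((m + 1)! + 1) * r.choose (m + 1) = (m + 1)! * r.choose (m + 1) + r.choose (m + 1) := by
      ring
    omega

/-- The factorial is Diophantine, given that binomial coefficients are. -/
theorem factorial_dioph_of {α : Type}
    (hc : ∀ {f g : (α → ℕ) → ℕ}, Dioph.DiophFn f → Dioph.DiophFn g →
      Dioph.DiophFn fun v => (f v).choose (g v))
    {f : (α → ℕ) → ℕ} (df : Dioph.DiophFn f) : Dioph.DiophFn fun v => (f v)! := by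
  have h2 : Dioph.DiophFn fun v : α → ℕ => 2 * f v + 2 :=
    Dioph.add_dioph (Dioph.mul_dioph (Dioph.const_dioph 2) df) (Dioph.const_dioph 2)
  have h3 : Dioph.DiophFn fun v : α → ℕ => f v + 2 := Dioph.add_dioph df (Dioph.const_dioph 2)
  have hr : Dioph.DiophFn fun v : α → ℕ => (2 * f v + 2) ^ (f v + 2) := Dioph.pow_dioph h2 h3
  have h4 : Dioph.DiophFn fun v : α → ℕ =>
      ((2 * f v + 2) ^ (f v + 2)) ^ (f v) / ((2 * f v + 2) ^ (f v + 2)).choose (f v) :=
    Dioph.div_dioph (Dioph.pow_dioph hr df) (hc hr df)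
  have e : (fun v : α → ℕ => (f v)!) = fun v : α → ℕ =>
      ((2 * f v + 2) ^ (f v + 2)) ^ (f v) / ((2 * f v + 2) ^ (f v + 2)).choose (f v) := by
    funext v
    exact factorial_eq_div (f v)
  rw [e]
  exact h4

end Pool.Agent.Helper76.MR
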