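import Pool.Agent.Helper76.MR.Choose
import Pool.Agent.Helper76.MR.Fact

/-!
# The factorial is a Diophantine function
-/

namespace Pool.Agent.Helper76.MR

open Nat

theorem factorial_dioph {α : Type} {f : (α → ℕ) → ℕ} (df : Dioph.DiophFn f) :
    Dioph.DiophFn fun v => (f v)! :=
  factorial_dioph_of (fun {_ _} h1 h2 => choose_dioph h1 h2) df

end Pool.Agent.Helper76.MR
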