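import Mathlib

/-!
# From `Poly` to `MvPolynomial`, and from natural to integer unknowns
-/

namespace Pool.Agent.Helper76.MR

open MvPolynomial

theorem mv_of_poly {γ : Type} (p : Poly γ) :
    ∃ P : MvPolynomial γ ℤ, ∀ v : γ → ℕ, MvPolynomial.eval (fun i => ((v i : ℕ) : ℤ)) P = p v := by
  refine Poly.induction (C := fun p : Poly γ => ∃ P : MvPolynomial γ ℤ,
    ∀ v : γ → ℕ, MvPolynomial.eval (fun i => ((v i : ℕ) : ℤ)) P = p v) ?_ ?_ ?_ ?_ p
  · intro i
    exact ⟨X i, fun v => by simp⟩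
  · intro n
    exact ⟨C n, fun v => by simp⟩
  · rintro f g ⟨P, hP⟩ ⟨R, hR⟩
    exact ⟨P - R, fun v => by rw [map_sub, hP, hR, Poly.sub_apply]⟩
  · rintro f g ⟨P, hP⟩ ⟨R, hR⟩
    exact ⟨P * R, fun v => by rw [map_mul, hP, hR, Poly.mul_apply]⟩

/-- Substitution of sums of four squares for the unknowns. -/
noncomputable def foursq {n : ℕ} (P : MvPolynomial (Option (Fin n)) ℤ) :
    MvPolynomial (Option (Fin (n * 4))) ℤ :=
  bind₁ (Option.elim' (X none) fun i : Fin n =>
    ∑ j : Fin 4, X (some (finProdFinEquiv (i, j))) ^ 2) P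

theorem eval_foursq {n : ℕ} (P : MvPolynomial (Option (Fin n)) ℤ) (x : ℤ)
    (t : Fin (n * 4) → ℤ) :
    eval (Option.elim' x t) (foursq P) =
      eval (Option.elim' x fun i : Fin n => ∑ j : Fin 4, t (finProdFinEquiv (i, j)) ^ 2) P := by
  have h : (eval (Option.elim' x t)).comp
      (bind₁ (Option.elim' (X none) fun i : Fin n =>
        ∑ j : Fin 4, (X (some (finProdFinEquiv (i, j))) ^ 2 :
          MvPolynomial (Option (Fin (n * 4))) ℤ))).toRingHom =
      eval (Option.elim' x fun i : Fin n => ∑ j : Fin 4, t (finProdFinEquiv (i, j)) ^ 2) := by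
    apply MvPolynomial.ringHom_ext
    · intro r
      simp
    · intro i
      cases i with
      | none => simp
      | some i => simp
  have := RingHom.congr_fun h P
  simpa [foursq] using this

/-- Natural unknowns can be replaced by integer unknowns. -/
theorem mv_int {n : ℕ} (P : MvPolynomial (Option (Fin n)) ℤ) (a : ℕ) :
    (∃ t : Fin n → ℕ, eval (fun i => ((Option.elim' a t i : ℕ) : ℤ)) P = 0) ↔
      ∃ t : Fin (n * 4) → ℤ, eval (Option.elim' (a : ℤ) t) (foursq P) = 0 := by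
  constructor
  · rintro ⟨t, ht⟩
    have h4 : ∀ i, ∃ s : Fin 4 → ℤ, ∑ j : Fin 4, s j ^ 2 = (t i : ℤ) := by
      intro i
      obtain ⟨x, y, z, w, h⟩ := Nat.sum_four_squares (t i)
      refine ⟨![x, y, z, w], ?_⟩
      simp [Fin.sum_univ_four]
      exact_mod_cast h
    choose s hs using h4
    refine ⟨fun k => s (finProdFinEquiv.symm k).1 (finProdFinEquiv.symm k).2, ?_⟩
    rw [eval_foursq]
    have e : (Option.elim' (a : ℤ) fun i : Fin n => ∑ j : Fin 4,
        (fun k => s (finProdFinEquiv.symm k).1 (finProdFinEquiv.symm k).2)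
          (finProdFinEquiv (i, j)) ^ 2) = fun i => ((Option.elim' a t i : ℕ) : ℤ) := by
      funext i
      cases i with
      | none => simp
      | some i => simp [hs i]
    rw [e]
    exact ht
  · rintro ⟨t, ht⟩
    rw [eval_foursq] at ht
    refine ⟨fun i => (∑ j : Fin 4, t (finProdFinEquiv (i, j)) ^ 2).toNat, ?_⟩
    have e : (fun i => ((Option.elim' a (fun i : Fin n =>
        (∑ j : Fin 4, t (finProdFinEquiv (i, j)) ^ 2).toNat) i : ℕ) : ℤ)) =
        Option.elim' (a : ℤ) fun i : Fin n => ∑ j : Fin 4, t (finProdFinEquiv (i, j)) ^ 2 := by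
      funext i
      cases i with
      | none => simp
      | some i =>
        have : (0 : ℤ) ≤ ∑ j : Fin 4, t (finProdFinEquiv (i, j)) ^ 2 :=
          Finset.sum_nonneg fun j _ => sq_nonneg _
        simp only [Option.elim']
        exact Int.toNat_of_nonneg this
    rw [e]
    exact ht

/-- From `Poly` to `MvPolynomial` with natural unknowns. -/
theorem to_mv {p : ℕ → Prop}
    (h : ∃ (n : ℕ) (P : Poly (Option (Fin n))), ∀ a, p a ↔
      ∃ t : Fin n → ℕ, P (Option.elim' a t) = 0) :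
    ∃ (n : ℕ) (P : MvPolynomial (Option (Fin n)) ℤ), ∀ a : ℕ, p a ↔
      ∃ t : Fin n → ℕ, MvPolynomial.eval (fun i => ((Option.elim' a t i : ℕ) : ℤ)) P = 0 := by
  obtain ⟨n, P, hP⟩ := h
  obtain ⟨R, hR⟩ := mv_of_poly P
  refine ⟨n, R, fun a => ?_⟩
  rw [hP a]
  constructor
  · rintro ⟨t, ht⟩
    exact ⟨t, by rw [hR]; exact ht⟩
  · rintro ⟨t, ht⟩
    exact ⟨t, by rw [hR] at ht; exact ht⟩

/-- From `Poly` to `MvPolynomial` with integer unknowns. -/
theorem to_mv_int {p : ℕ → Prop}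
    (h : ∃ (n : ℕ) (P : Poly (Option (Fin n))), ∀ a, p a ↔
      ∃ t : Fin n → ℕ, P (Option.elim' a t) = 0) :
    ∃ (n : ℕ) (P : MvPolynomial (Option (Fin n)) ℤ), ∀ a : ℕ, p a ↔
      ∃ t : Fin n → ℤ, MvPolynomial.eval (Option.elim' (a : ℤ) t) P = 0 := by
  obtain ⟨n, P, hP⟩ := to_mv h
  refine ⟨n * 4, foursq P, fun a => ?_⟩
  rw [hP a, mv_int]

end Pool.Agent.Helper76.MR
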