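import Mathlib
import Pool.Agent.Helper57.MR.CountDefs

/-!
# Existence of a family of alternating forms over `F_2` without large isotropic subspaces
-/

namespace Helper76.MR

open Finset Module Helper57.MR

section surj

variable {I B : Type*} [Fintype I] [Fintype B]

/-- The value of `sum_i a_i W_i` at `(u, v)`, where `W_i(u,v) = sum M i p q (u_p v_q - u_q v_p)`. -/
def form (M : I → B → B → ZMod 2) (a : I → ZMod 2) (u v : B → ZMod 2) : ZMod 2 :=
  ∑ i, ∑ p, ∑ q, M i p q * (a i * (u p * v q - u q * v p))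

theorem om_eq_form (M : I → B → B → ZMod 2) (a : I → ZMod 2) (u v : B → ZMod 2) :
    om M a u v = form M a u v := by
  unfold om tri form
  rw [← Finset.sum_sub_distrib]
  apply Finset.sum_congr rfl
  intro i _
  rw [← Finset.sum_sub_distrib]
  apply Finset.sum_congr rfl
  intro p _
  rw [← Finset.sum_sub_distrib]
  apply Finset.sum_congr rfl
  intro q _
  ring

/-- Evaluation of the family at finitely many arguments, a linear map in the family. -/
def evalMap {κ ι₁ ι₂ : Type*} (w : κ → I → ZMod 2) (u : ι₁ → B → ZMod 2)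
    (v : ι₂ → B → ZMod 2) :
    (I → B → B → ZMod 2) →ₗ[ZMod 2] (κ × ι₁ × ι₂ → ZMod 2) where
  toFun M := fun x => form M (w x.1) (u x.2.1) (v x.2.2)
  map_add' M M' := by
    funext x
    simp only [form, Pi.add_apply, add_mul, Finset.sum_add_distrib]
  map_smul' c M := by
    funext x
    simp only [form, Pi.smul_apply, smul_eq_mul, RingHom.id_apply, Finset.mul_sum, mul_assoc]

theorem form_prod (α : I → ZMod 2) (β γ : B → ZMod 2) (a : I → ZMod 2) (u v : B → ZMod 2) :
    form (fun i p q => α i * (β p * γ q)) a u v =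
      (∑ i, a i * α i) * ((∑ p, u p * β p) * (∑ q, v q * γ q) -
        (∑ p, v p * β p) * (∑ q, u q * γ q)) := by
  unfold form
  have h1 : ∀ i, ∑ p, ∑ q, α i * (β p * γ q) * (a i * (u p * v q - u q * v p)) =
      a i * α i * ((∑ p, u p * β p) * (∑ q, v q * γ q) -
        (∑ p, v p * β p) * (∑ q, u q * γ q)) := by
    intro i
    rw [Finset.sum_mul_sum, Finset.sum_mul_sum, ← Finset.sum_sub_distrib, Finset.mul_sum]
    apply Finset.sum_congr rfl
    intro p _
    rw [← Finset.sum_sub_distrib, Finset.mul_sum]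
    apply Finset.sum_congr rfl
    intro q _
    ring
  rw [Finset.sum_congr rfl fun i _ => h1 i, ← Finset.sum_mul]

/-- Dual functionals of a linearly independent family, as vectors. -/
theorem exists_dual {J κ : Type*} [Fintype J] [DecidableEq κ]
    {w : κ → J → ZMod 2}
    (hw : LinearIndependent (ZMod 2) w) :
    ∃ d : κ → J → ZMod 2, ∀ l m, ∑ i, w m i * d l i = if m = l then 1 else 0 := by
  classical
  have h : ∀ l : κ, ∃ f : (J → ZMod 2) →ₗ[ZMod 2] ZMod 2, ∀ m, f (w m) = if m = l then 1 else 0 := by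
    intro l
    let b := Basis.span hw
    obtain ⟨g, hg⟩ := LinearMap.exists_extend
      (b.constr (ZMod 2) fun m : κ => if m = l then (1 : ZMod 2) else 0)
    refine ⟨g, fun m => ?_⟩
    have h1 : g ((b m : _) : J → ZMod 2) = if m = l then 1 else 0 := by
      have := LinearMap.congr_fun hg (b m)
      simpa [Basis.constr_basis] using this
    have h2 : ((b m : _) : J → ZMod 2) = w m := by
      have := Basis.span_apply hw m
      exact congrArg Subtype.val this
    rw [← h2]; exact h1
  choose f hf using h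
  refine ⟨fun l i => f l (fun j => if i = j then 1 else 0), fun l m => ?_⟩
  rw [← hf l m, LinearMap.pi_apply_eq_sum_univ (f l) (w m)]
  apply Finset.sum_congr rfl
  intro i _
  rw [smul_eq_mul]

theorem evalMap_surjective {κ ι₁ ι₂ : Type*} [Fintype κ] [Fintype ι₁] [Fintype ι₂]
    {w : κ → I → ZMod 2} {u : ι₁ → B → ZMod 2} {v : ι₂ → B → ZMod 2}
    (hw : LinearIndependent (ZMod 2) w) (huv : LinearIndependent (ZMod 2) (Sum.elim u v)) :
    Function.Surjective (evalMap w u v) := by
  classical
  obtain ⟨dw, hdw⟩ := exists_dual hw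
  obtain ⟨dd, hdd⟩ := exists_dual huv
  have key : ∀ x : κ × ι₁ × ι₂, evalMap w u v
      (fun i p q => dw x.1 i * (dd (Sum.inl x.2.1) p * dd (Sum.inr x.2.2) q)) =
        Pi.single x 1 := by
    rintro ⟨l, i, j⟩
    funext y
    obtain ⟨l', i', j'⟩ := y
    have h1 := hdw l l'
    have h2 := hdd (Sum.inl i) (Sum.inl i')
    have h3 := hdd (Sum.inr j) (Sum.inr j')
    have h4 := hdd (Sum.inl i) (Sum.inr j')
    have h5 := hdd (Sum.inr j) (Sum.inl i')
    simp only [Sum.elim_inl, Sum.elim_inr] at h2 h3 h4 h5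
    change form _ (w l') (u i') (v j') = _
    rw [form_prod, h1, h2, h3, h4, h5]
    by_cases e1 : l' = l <;> by_cases e2 : i' = i <;> by_cases e3 : j' = j <;>
      simp [e1, e2, e3]
  intro c
  refine ⟨∑ x, c x • (fun i p q => dw x.1 i * (dd (Sum.inl x.2.1) p * dd (Sum.inr x.2.2) q)), ?_⟩
  rw [map_sum]
  simp only [map_smul, key]
  funext y
  simp [Finset.sum_apply, Pi.single_apply]

theorem card_ker {κ ι₁ ι₂ : Type*} [Fintype κ] [Fintype ι₁] [Fintype ι₂]
    {w : κ → I → ZMod 2} {u : ι₁ → B → ZMod 2} {v : ι₂ → B → ZMod 2}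
    (hw : LinearIndependent (ZMod 2) w) (huv : LinearIndependent (ZMod 2) (Sum.elim u v)) :
    Nat.card (LinearMap.ker (evalMap w u v)) *
      2 ^ (Fintype.card κ * (Fintype.card ι₁ * Fintype.card ι₂)) =
        Nat.card (I → B → B → ZMod 2) := by
  classical
  rw [Submodule.card_eq_card_quotient_mul_card (LinearMap.ker (evalMap w u v))]
  have e := (LinearMap.quotKerEquivOfSurjective _ (evalMap_surjective hw huv)).toEquiv
  rw [Nat.card_congr e]
  have h : Nat.card (κ × ι₁ × ι₂ → ZMod 2) =
      2 ^ (Fintype.card κ * (Fintype.card ι₁ * Fintype.card ι₂)) := by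
    rw [Nat.card_eq_fintype_card, Fintype.card_fun, ZMod.card, Fintype.card_prod,
      Fintype.card_prod]
  rw [h]

end surj

/-- A union bound. -/
theorem union_bound {E P : Type*} [Fintype E] [Fintype P] (K : P → Set E) {r s : ℕ}
    (hK : ∀ x, Nat.card (K x) * 2 ^ r = Nat.card E) (hP : Fintype.card P ≤ 2 ^ s)
    (hrs : s + 2 ≤ r) : 4 * Nat.card (⋃ x, K x : Set E) ≤ Nat.card E := by
  classical
  have h1 : Nat.card (⋃ x, K x : Set E) ≤ ∑ x : P, Nat.card (K x) := by
    have : (⋃ x, K x : Set E).toFinset ⊆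
        (Finset.univ : Finset P).biUnion fun x => (K x).toFinset := by
      intro y hy
      rw [Set.mem_toFinset, Set.mem_iUnion] at hy
      obtain ⟨x, hx⟩ := hy
      exact Finset.mem_biUnion.2 ⟨x, Finset.mem_univ x, Set.mem_toFinset.2 hx⟩
    calc Nat.card (⋃ x, K x : Set E) = (⋃ x, K x : Set E).toFinset.card := by
          rw [Nat.card_eq_card_toFinset]
      _ ≤ _ := Finset.card_le_card this
      _ ≤ ∑ x : P, (K x).toFinset.card := Finset.card_biUnion_le
      _ = ∑ x : P, Nat.card (K x) := by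
          apply Finset.sum_congr rfl
          intro x _
          rw [Nat.card_eq_card_toFinset]
  have h2 : (∑ x : P, Nat.card (K x)) * 2 ^ r ≤ 2 ^ s * Nat.card E := by
    rw [Finset.sum_mul, Finset.sum_congr rfl fun x _ => hK x, Finset.sum_const, smul_eq_mul,
      Finset.card_univ]
    exact Nat.mul_le_mul_right _ hP
  have h3 : Nat.card (⋃ x, K x : Set E) * 2 ^ r ≤ 2 ^ s * Nat.card E :=
    (Nat.mul_le_mul_right _ h1).trans h2
  have h4 : 2 ^ s * (4 * Nat.card (⋃ x, K x : Set E)) ≤ 2 ^ s * Nat.card E := by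
    calc 2 ^ s * (4 * Nat.card (⋃ x, K x : Set E)) =
        Nat.card (⋃ x, K x : Set E) * 2 ^ (s + 2) := by ring
      _ ≤ Nat.card (⋃ x, K x : Set E) * 2 ^ r :=
          Nat.mul_le_mul_left _ (Nat.pow_le_pow_right (by norm_num) hrs)
      _ ≤ _ := h3
  exact Nat.le_of_mul_le_mul_left h4 (by positivity)

section lin

variable {κ : Type*} [Fintype κ]

/-- A subspace of codimension at most `e` contains the common kernel of `e` functionals. -/
theorem exists_functionals {N e : ℕ} (hN : Fintype.card κ = N)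
    (U : Submodule (ZMod 2) (κ → ZMod 2)) (hU : N ≤ finrank (ZMod 2) U + e) :
    ∃ A : Fin e → κ → ZMod 2, ∀ x : κ → ZMod 2, (∀ s, ∑ p, x p * A s p = 0) → x ∈ U := by
  classical
  have hq : finrank (ZMod 2) ((κ → ZMod 2) ⧸ U) ≤ e := by
    have h1 := Submodule.finrank_quotient_add_finrank U
    rw [Module.finrank_fintype_fun_eq_card, hN] at h1
    omega
  let b := Module.finBasis (ZMod 2) ((κ → ZMod 2) ⧸ U)
  let f : Fin e → (κ → ZMod 2) →ₗ[ZMod 2] ZMod 2 := fun s =>
    if h : (s : ℕ) < finrank (ZMod 2) ((κ → ZMod 2) ⧸ U) then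
      (b.coord ⟨s, h⟩).comp U.mkQ else 0
  refine ⟨fun s p => f s (fun j => if p = j then 1 else 0), fun x hx => ?_⟩
  have hf : ∀ s, f s x = 0 := by
    intro s
    rw [LinearMap.pi_apply_eq_sum_univ (f s) x]
    simpa [smul_eq_mul] using hx s
  have h0 : U.mkQ x = 0 := by
    apply b.ext_elem
    intro i
    have h := hf ⟨i, i.2.trans_le hq⟩
    have h' : f ⟨i, i.2.trans_le hq⟩ = (b.coord i).comp U.mkQ := by
      simp [f]
    rw [h'] at h
    simpa using h
  simpa using h0

/-- The common kernel of `e` functionals contains many independent vectors. -/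
theorem exists_indep {N e r : ℕ} (hN : Fintype.card κ = N) (hr : r + e ≤ N)
    (A : Fin e → κ → ZMod 2) :
    ∃ u : Fin r → κ → ZMod 2, LinearIndependent (ZMod 2) u ∧
      ∀ i s, ∑ p, u i p * A s p = 0 := by
  classical
  let g : (κ → ZMod 2) →ₗ[ZMod 2] (Fin e → ZMod 2) :=
    { toFun := fun x s => ∑ p, x p * A s p
      map_add' := by
        intro x y; funext s
        simp [add_mul, Finset.sum_add_distrib]
      map_smul' := by
        intro c x; funext s
        simp [Finset.mul_sum, mul_assoc] }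
  have h1 := LinearMap.finrank_range_add_finrank_ker g
  rw [Module.finrank_fintype_fun_eq_card, hN] at h1
  have h2 : finrank (ZMod 2) (LinearMap.range g) ≤ e := by
    have := Submodule.finrank_le (LinearMap.range g)
    rwa [Module.finrank_fintype_fun_eq_card, Fintype.card_fin] at this
  obtain ⟨f, hf⟩ := exists_linearIndependent_of_le_finrank
    (show r ≤ finrank (ZMod 2) (LinearMap.ker g) by omega)
  refine ⟨fun i => (f i : κ → ZMod 2), ?_, ?_⟩
  · exact hf.map' (Submodule.subtype _) (Submodule.ker_subtype _)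
  · intro i s
    have := (f i).2
    rw [LinearMap.mem_ker] at this
    exact congrFun this s

end lin

/-- P1: a family which is good in both senses exists, by counting. -/
theorem exists_family {ι κ : Type*} [Fintype ι] [Fintype κ] {m N k d d2 e : ℕ}
    (hm : Fintype.card ι = m) (hN : Fintype.card κ = N)
    (h1 : m + e * N + 2 ≤ d2 * d2) (h2 : 2 * d2 + e ≤ N)
    (h3 : k * m + 2 * d * N + 2 ≤ k * (d * d)) :
    ∃ T : ι → κ → κ → ZMod 2, GoodOne T N e ∧ GoodMany T k d := by
  classical
  -- independent vectors in every common kernel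
  have hind : ∀ A : Fin e → κ → ZMod 2, ∃ u : Fin d2 ⊕ Fin d2 → κ → ZMod 2,
      LinearIndependent (ZMod 2) u ∧ ∀ i s, ∑ p, u i p * A s p = 0 := by
    intro A
    obtain ⟨u, hu, hA⟩ := exists_indep (r := d2 + d2) hN (by omega) A
    exact ⟨fun i => u (finSumFinEquiv i), hu.comp _ finSumFinEquiv.injective, fun i s => hA _ s⟩
  choose uu huu hker using hind
  let P1 := {x : (ι → ZMod 2) × (Fin e → κ → ZMod 2) // x.1 ≠ 0}
  let P2 := {x : (Fin k → ι → ZMod 2) × (Fin d ⊕ Fin d → κ → ZMod 2) //
    LinearIndependent (ZMod 2) x.1 ∧ LinearIndependent (ZMod 2) x.2}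
  let K1 : P1 → Set (ι → κ → κ → ZMod 2) := fun x =>
    (LinearMap.ker (evalMap (fun _ : Fin 1 => x.1.1) (fun i => uu x.1.2 (Sum.inl i))
      (fun i => uu x.1.2 (Sum.inr i))) : Set _)
  let K2 : P2 → Set (ι → κ → κ → ZMod 2) := fun x =>
    (LinearMap.ker (evalMap x.1.1 (fun i => x.1.2 (Sum.inl i))
      (fun i => x.1.2 (Sum.inr i))) : Set _)
  have helim : ∀ {n : ℕ} (u : Fin n ⊕ Fin n → κ → ZMod 2),
      Sum.elim (fun i => u (Sum.inl i)) (fun i => u (Sum.inr i)) = u := by
    intro n u
    funext i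
    cases i <;> rfl
  have b1 : 4 * Nat.card (⋃ x, K1 x : Set (ι → κ → κ → ZMod 2)) ≤
      Nat.card (ι → κ → κ → ZMod 2) := by
    refine union_bound K1 (r := d2 * d2) (s := m + e * N) ?_ ?_ h1
    · intro x
      have hw : LinearIndependent (ZMod 2) (fun _ : Fin 1 => x.1.1) := by
        have : Subsingleton (Fin 1) := inferInstance
        exact LinearIndependent.of_subsingleton (0 : Fin 1) x.2
      have := card_ker (I := ι) (B := κ) hw (by
        rw [helim (uu x.1.2)]; exact huu x.1.2)
      have e1 : Fintype.card (Fin 1) * (Fintype.card (Fin d2) * Fintype.card (Fin d2)) =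
          d2 * d2 := by simp
      rw [e1] at this
      exact this
    · calc Fintype.card P1 ≤ Fintype.card ((ι → ZMod 2) × (Fin e → κ → ZMod 2)) :=
            Fintype.card_subtype_le _
        _ = 2 ^ (m + e * N) := by
            rw [Fintype.card_prod, Fintype.card_fun, Fintype.card_fun, Fintype.card_fun,
              ZMod.card, hm, hN, Fintype.card_fin, ← pow_mul, ← pow_add, mul_comm N e]
        _ ≤ 2 ^ (m + e * N) := le_rfl
  have b2 : 4 * Nat.card (⋃ x, K2 x : Set (ι → κ → κ → ZMod 2)) ≤
      Nat.card (ι → κ → κ → ZMod 2) := by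
    refine union_bound K2 (r := k * (d * d)) (s := k * m + 2 * d * N) ?_ ?_ h3
    · intro x
      have := card_ker (I := ι) (B := κ) x.2.1 (by
        rw [helim x.1.2]; exact x.2.2)
      have e1 : Fintype.card (Fin k) * (Fintype.card (Fin d) * Fintype.card (Fin d)) =
          k * (d * d) := by simp
      rw [e1] at this
      exact this
    · calc Fintype.card P2 ≤
            Fintype.card ((Fin k → ι → ZMod 2) × (Fin d ⊕ Fin d → κ → ZMod 2)) :=
            Fintype.card_subtype_le _
        _ = 2 ^ (k * m + 2 * d * N) := by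
            rw [Fintype.card_prod, Fintype.card_fun, Fintype.card_fun, Fintype.card_fun,
              Fintype.card_fun, Fintype.card_sum,
              ZMod.card, hm, hN, Fintype.card_fin, Fintype.card_fin, ← pow_mul, ← pow_mul,
              ← pow_add]
            congr 1
            ring
        _ ≤ 2 ^ (k * m + 2 * d * N) := le_rfl
  have hcover : ∀ T : ι → κ → κ → ZMod 2, ¬ (GoodOne T N e ∧ GoodMany T k d) →
      T ∈ (⋃ x, K1 x) ∪ (⋃ x, K2 x) := by
    intro T hT
    rw [not_and_or] at hT
    rcases hT with hT | hT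
    · left
      unfold GoodOne at hT
      push Not at hT
      obtain ⟨a, ha, U, hU, hiso⟩ := hT
      obtain ⟨A, hA⟩ := exists_functionals hN U hU
      rw [Set.mem_iUnion]
      refine ⟨⟨(a, A), ha⟩, ?_⟩
      change T ∈ LinearMap.ker _
      rw [LinearMap.mem_ker]
      funext y
      change form T a (uu A (Sum.inl y.2.1)) (uu A (Sum.inr y.2.2)) = 0
      rw [← om_eq_form]
      exact hiso _ (hA _ (hker A _)) _ (hA _ (hker A _))
    · right
      unfold GoodMany at hT
      push Not at hT
      obtain ⟨w, hw, u, hu, hiso⟩ := hT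
      rw [Set.mem_iUnion]
      refine ⟨⟨(w, u), hw, hu⟩, ?_⟩
      change T ∈ LinearMap.ker _
      rw [LinearMap.mem_ker]
      funext y
      change form T (w y.1) (u (Sum.inl y.2.1)) (u (Sum.inr y.2.2)) = 0
      rw [← om_eq_form]
      exact hiso _ _ _
  by_contra hno
  push Not at hno
  have hall : (Set.univ : Set (ι → κ → κ → ZMod 2)) ⊆ (⋃ x, K1 x) ∪ (⋃ x, K2 x) := by
    intro T _
    exact hcover T (fun h => hno T h.1 h.2)
  have hcard : Nat.card (ι → κ → κ → ZMod 2) ≤
      Nat.card (⋃ x, K1 x : Set (ι → κ → κ → ZMod 2)) +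
        Nat.card (⋃ x, K2 x : Set (ι → κ → κ → ZMod 2)) := by
    have h5 : Set.ncard (Set.univ : Set (ι → κ → κ → ZMod 2)) ≤
        Set.ncard ((⋃ x, K1 x) ∪ (⋃ x, K2 x)) := Set.ncard_le_ncard hall (Set.toFinite _)
    have h6 := Set.ncard_union_le (⋃ x, K1 x) (⋃ x, K2 x)
    rw [Set.ncard_univ] at h5
    exact h5.trans h6
  have hpos : 0 < Nat.card (ι → κ → κ → ZMod 2) := Nat.card_pos
  omega

end Helper76.MR
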