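import Mathlib

/-!
# The number theoretic core of the bounded quantifier theorem (Davis 1973)
-/

namespace Pool.Agent.Helper76.MR

open Finset

/-- The product of the moduli `1 + (k + 1) t`, `k < y`. -/
def bigProd (y t : ℕ) : ℕ := ∏ k ∈ Finset.range y, (1 + (k + 1) * t)

theorem mod_dvd_bigProd {y t k : ℕ} (hk : k < y) : 1 + (k + 1) * t ∣ bigProd y t :=
  Finset.dvd_prod_of_mem (fun k => 1 + (k + 1) * t) (Finset.mem_range.2 hk)

theorem bigProd_modEq (y t : ℕ) : bigProd y t ≡ 1 [MOD t] := by
  unfold bigProd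
  induction y with
  | zero => simp; rfl
  | succ n ih =>
    rw [Finset.prod_range_succ]
    have h1 : 1 + (n + 1) * t ≡ 1 [MOD t] := by
      have : (n + 1) * t ≡ 0 [MOD t] := (Nat.modEq_zero_iff_dvd).2 (Dvd.intro_left _ rfl)
      simpa using (Nat.ModEq.add_left 1 this)
    simpa using ih.mul h1

theorem one_lt_bigProd {y t : ℕ} (hy : 0 < y) (ht : 0 < t) : 1 < bigProd y t := by
  have h1 : 1 + (0 + 1) * t ∣ bigProd y t := mod_dvd_bigProd hy
  have h2 : 0 < bigProd y t := Finset.prod_pos fun k _ => by positivity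
  have h3 := Nat.le_of_dvd h2 h1
  omega

theorem exists_quot {y t : ℕ} (hy : 0 < y) (ht : 0 < t) :
    ∃ c, 1 + (c + 1) * t = bigProd y t := by
  have h1 : 1 ≡ bigProd y t [MOD t] := (bigProd_modEq y t).symm
  have h2 : t ∣ bigProd y t - 1 := (Nat.modEq_iff_dvd' (one_lt_bigProd hy ht).le).1 h1
  obtain ⟨c, hc⟩ := h2
  have h3 := one_lt_bigProd hy ht
  rcases Nat.eq_zero_or_pos c with h0 | h0
  · subst h0; simp at hc; omega
  · refine ⟨c - 1, ?_⟩
    have : c - 1 + 1 = c := by omega
    rw [this, mul_comm c t, ← hc]; omega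

theorem mods_coprime {N k l : ℕ} (hkl : k < l) (hl : l ≤ N) :
    Nat.Coprime (1 + (k + 1) * N.factorial) (1 + (l + 1) * N.factorial) := by
  rw [Nat.coprime_iff_gcd_eq_one]
  by_contra hne
  obtain ⟨p, hp, hpd⟩ := Nat.exists_prime_and_dvd hne
  have h1 : p ∣ 1 + (k + 1) * N.factorial := hpd.trans (Nat.gcd_dvd_left _ _)
  have h2 : p ∣ 1 + (l + 1) * N.factorial := hpd.trans (Nat.gcd_dvd_right _ _)
  have h3 : p ∣ (l - k) * N.factorial := by
    have h := Nat.dvd_sub h2 h1
    have e : 1 + (l + 1) * N.factorial - (1 + (k + 1) * N.factorial) =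
        (l - k) * N.factorial := by
      rw [Nat.add_sub_add_left, ← Nat.sub_mul]
      congr 1; omega
    rwa [e] at h
  have h4 : ¬ p ∣ N.factorial := by
    intro h
    have : p ∣ 1 := (Nat.dvd_add_left (h.mul_left _)).1 h1
    exact hp.one_lt.ne' (Nat.dvd_one.1 this)
  rcases (hp.dvd_mul).1 h3 with h | h
  · apply h4
    rw [hp.dvd_factorial]
    exact (Nat.le_of_dvd (by omega) h).trans (by omega)
  · exact h4 h

theorem mod_le_of_dvd_descFactorial {p n u : ℕ} (hp : p.Prime)
    (h : p ∣ n.descFactorial (u + 1)) : n % p ≤ u := by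
  rw [Nat.descFactorial_eq_prod_range] at h
  obtain ⟨j, hj, hd⟩ := (Prime.dvd_finset_prod_iff hp.prime _).1 h
  rw [Finset.mem_range] at hj
  rcases le_or_gt j n with hjn | hjn
  · obtain ⟨q, hq⟩ := hd
    have : n = j + p * q := by omega
    rw [this, Nat.add_mul_mod_self_left]
    exact (Nat.mod_le _ _).trans (by omega)
  · exact (Nat.mod_le _ _).trans (by omega)

/-- The number theoretic core of the bounded quantifier theorem. -/
theorem core {ι : Type*} [Fintype ι] (P : ℕ → (ι → ℕ) → ℤ) (Q : ℕ → ℕ) (y : ℕ)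
    (hy : 0 < y)
    (hP : ∀ (d c k : ℕ) (a b : ι → ℕ), c ≡ k [MOD d] → (∀ i, a i ≡ b i [MOD d]) →
      P c a ≡ P k b [ZMOD d])
    (hQ : ∀ u k, k < y → ∀ b : ι → ℕ, (∀ i, b i ≤ u) → |P k b| ≤ (Q u : ℤ))
    (hQy : ∀ u, y ≤ Q u) (hQu : ∀ u, u < Q u) :
    (∀ k < y, ∃ b : ι → ℕ, P k b = 0) ↔
      ∃ u c : ℕ, ∃ a : ι → ℕ, 1 + (c + 1) * (Q u).factorial = bigProd y (Q u).factorial ∧
        ((bigProd y (Q u).factorial : ℕ) : ℤ) ∣ P c a ∧
        ∀ i, bigProd y (Q u).factorial ∣ (a i).descFactorial (u + 1) := by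
  constructor
  · intro h
    choose! b hb using h
    set u : ℕ := (Finset.range y).sup fun k => Finset.univ.sup (b k) with hu
    have hbu : ∀ k < y, ∀ i, b k i ≤ u := by
      intro k hk i
      have h1 : b k i ≤ Finset.univ.sup (b k) := Finset.le_sup (Finset.mem_univ i)
      have h2 : Finset.univ.sup (b k) ≤ u :=
        Finset.le_sup (f := fun k => Finset.univ.sup (b k)) (Finset.mem_range.2 hk)
      exact h1.trans h2
    set t := (Q u).factorial with ht
    have htpos : 0 < t := Nat.factorial_pos _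
    obtain ⟨c, hc⟩ := exists_quot hy htpos
    have hcop : ∀ k < y, ∀ l < y, k ≠ l →
        Nat.Coprime (1 + (k + 1) * t) (1 + (l + 1) * t) := by
      intro k hk l hl hkl
      rcases lt_or_gt_of_ne hkl with h | h
      · exact mods_coprime h (hl.le.trans (hQy u))
      · exact (mods_coprime h (hk.le.trans (hQy u))).symm
    have hpair : Set.Pairwise (↑(Finset.range y) : Set ℕ)
        (Function.onFun Nat.Coprime fun k => 1 + (k + 1) * t) := by
      intro k hk l hl hkl
      exact hcop k (by simpa using hk) l (by simpa using hl) hkl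
    have hcrt : ∀ i, ∃ a : ℕ, ∀ k < y, a ≡ b k i [MOD 1 + (k + 1) * t] := by
      intro i
      let r := Nat.chineseRemainderOfFinset (fun k => b k i) (fun k => 1 + (k + 1) * t)
        (Finset.range y) (fun k _ => by positivity) hpair
      exact ⟨r.1, fun k hk => r.2 k (Finset.mem_range.2 hk)⟩
    choose a ha using hcrt
    have hck : ∀ k < y, c ≡ k [MOD 1 + (k + 1) * t] := by
      intro k hk
      have h1 : (c + 1) * t + 1 ≡ (k + 1) * t + 1 [MOD 1 + (k + 1) * t] := by
        have e1 : (c + 1) * t + 1 = bigProd y t := by rw [← hc]; ring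
        rw [e1]
        have h2 : bigProd y t ≡ 0 [MOD 1 + (k + 1) * t] :=
          (Nat.modEq_zero_iff_dvd).2 (mod_dvd_bigProd hk)
        have h3 : (k + 1) * t + 1 ≡ 0 [MOD 1 + (k + 1) * t] :=
          (Nat.modEq_zero_iff_dvd).2 (by rw [add_comm])
        exact h2.trans h3.symm
      have h2 : (c + 1) * t ≡ (k + 1) * t [MOD 1 + (k + 1) * t] := Nat.ModEq.add_right_cancel' 1 h1
      have hg : Nat.gcd (1 + (k + 1) * t) t = 1 := by
        rw [Nat.gcd_comm, add_comm]
        simp
      have h3 : c + 1 ≡ k + 1 [MOD 1 + (k + 1) * t] :=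
        Nat.ModEq.cancel_right_of_coprime hg h2
      exact Nat.ModEq.add_right_cancel' 1 h3
    refine ⟨u, c, a, hc, ?_, ?_⟩
    · unfold bigProd
      rw [Nat.cast_prod]
      apply Finset.prod_dvd_of_coprime
      · intro k hk l hl hkl
        have := hcop k (by simpa using hk) l (by simpa using hl) hkl
        exact Nat.isCoprime_iff_coprime.2 this
      · intro k hk
        have hk' : k < y := Finset.mem_range.1 hk
        have h1 := hP (1 + (k + 1) * t) c k a (b k) (hck k hk') (fun i => ha i k hk')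
        rw [hb k hk'] at h1
        exact (Int.modEq_zero_iff_dvd).1 h1
    · intro i
      have h1 : ((bigProd y t : ℕ) : ℤ) ∣ ((a i).descFactorial (u + 1) : ℕ) := by
        unfold bigProd
        rw [Nat.cast_prod]
        apply Finset.prod_dvd_of_coprime
        · intro k hk l hl hkl
          have := hcop k (by simpa using hk) l (by simpa using hl) hkl
          exact Nat.isCoprime_iff_coprime.2 this
        · intro k hk
          have hk' : k < y := Finset.mem_range.1 hk
          rw [Int.natCast_dvd_natCast]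
          rw [Nat.descFactorial_eq_prod_range]
          rcases le_or_gt (b k i) (a i) with hle | hlt
          · have h2 : 1 + (k + 1) * t ∣ a i - b k i :=
              (Nat.modEq_iff_dvd' hle).1 (ha i k hk').symm
            exact h2.trans (Finset.dvd_prod_of_mem (fun j => a i - j)
              (Finset.mem_range.2 (Nat.lt_succ_of_le (hbu k hk' i))))
          · have h0 : ∏ j ∈ Finset.range (u + 1), (a i - j) = 0 := by
              apply Finset.prod_eq_zero (i := a i)
              · rw [Finset.mem_range]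
                have := hbu k hk' i
                omega
              · simp
            rw [h0]
            exact dvd_zero _
      exact Int.natCast_dvd_natCast.1 h1
  · rintro ⟨u, c, a, hc, hPd, hdes⟩ k hk
    set t := (Q u).factorial with ht
    have htpos : 0 < t := Nat.factorial_pos _
    have hm : 1 + (k + 1) * t ≠ 1 := by
      have : 0 < (k + 1) * t := by positivity
      omega
    obtain ⟨p, hp, hpm⟩ := Nat.exists_prime_and_dvd hm
    have hpB : p ∣ bigProd y t := hpm.trans (mod_dvd_bigProd hk)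
    have hpt : ¬ p ∣ t := by
      intro h
      have : p ∣ 1 := (Nat.dvd_add_left (h.mul_left _)).1 hpm
      exact hp.one_lt.ne' (Nat.dvd_one.1 this)
    have hpQ : Q u < p := by
      by_contra hle
      exact hpt ((hp.dvd_factorial).2 (not_lt.1 hle))
    refine ⟨fun i => a i % p, ?_⟩
    have hb : ∀ i, a i % p ≤ u := fun i =>
      mod_le_of_dvd_descFactorial hp (hpB.trans (hdes i))
    have hck : c ≡ k [MOD p] := by
      have h1 : (c + 1) * t + 1 ≡ (k + 1) * t + 1 [MOD p] := by
        have e1 : (c + 1) * t + 1 = bigProd y t := by rw [← hc]; ring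
        rw [e1]
        have h2 : bigProd y t ≡ 0 [MOD p] := (Nat.modEq_zero_iff_dvd).2 hpB
        have h3 : (k + 1) * t + 1 ≡ 0 [MOD p] :=
          (Nat.modEq_zero_iff_dvd).2 (by rw [add_comm]; exact hpm)
        exact h2.trans h3.symm
      have h2 : (c + 1) * t ≡ (k + 1) * t [MOD p] := Nat.ModEq.add_right_cancel' 1 h1
      have hg : Nat.gcd p t = 1 := (hp.coprime_iff_not_dvd).2 hpt
      exact Nat.ModEq.add_right_cancel' 1 (Nat.ModEq.cancel_right_of_coprime hg h2)
    have h1 := hP p c k a (fun i => a i % p) hck (fun i => (Nat.mod_modEq _ _).symm)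
    have h2 : (p : ℤ) ∣ P c a := (Int.natCast_dvd_natCast.2 hpB).trans hPd
    have h3 : (p : ℤ) ∣ P k (fun i => a i % p) := by
      have h4 : P c a ≡ 0 [ZMOD p] := (Int.modEq_zero_iff_dvd).2 h2
      exact (Int.modEq_zero_iff_dvd).1 (h1.symm.trans h4)
    apply Int.eq_zero_of_abs_lt_dvd h3
    calc |P k (fun i => a i % p)| ≤ (Q u : ℤ) := hQ u k hk _ hb
      _ < p := by exact_mod_cast hpQ

end Pool.Agent.Helper76.MR
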